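import Pool.Agent.H31.SW.TargetsL

/-!
# (D3) threefold differences of holomorphic functions
-/

set_option autoImplicit false

open MeasureTheory Set Filter Complex

namespace Pool.Agent.H33.SWL.D3

open Pool.Agent.H31.SW

private theorem step (F F' : ℂ → ℂ) (w₀ : ℂ) (ρ M : ℝ)
    (h : ∀ z ∈ Metric.ball w₀ ρ, HasDerivAt F (F' z) z ∧ ‖F' z‖ ≤ M) (z b : ℂ)
    (hz : ‖z - w₀‖ + ‖b‖ < ρ) : ‖F (z + b) - F z‖ ≤ M * ‖b‖ := by
  have h1 : z ∈ Metric.ball w₀ ρ := by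
    rw [mem_ball_iff_norm]
    have := norm_nonneg b
    linarith
  have h2 : z + b ∈ Metric.ball w₀ ρ := by
    rw [mem_ball_iff_norm]
    have h3 : z + b - w₀ = (z - w₀) + b := by ring
    rw [h3]
    exact (norm_add_le _ _).trans_lt hz
  have h3 := Convex.norm_image_sub_le_of_norm_hasDerivWithin_le (f := F) (f' := F')
    (s := Metric.ball w₀ ρ) (C := M) (fun x hx => (h x hx).1.hasDerivWithinAt)
    (fun x hx => (h x hx).2) (convex_ball w₀ ρ) h1 h2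
  rwa [add_sub_cancel_left] at h3

/-- the derivatives of the differences -/
private theorem diff (F F' : ℂ → ℂ) (w₀ : ℂ) (ρ : ℝ)
    (h : ∀ z ∈ Metric.ball w₀ ρ, HasDerivAt F (F' z) z) (b : ℂ) :
    ∀ z ∈ Metric.ball w₀ (ρ - ‖b‖),
      HasDerivAt (fun z => F (z + b) - F z) (F' (z + b) - F' z) z := by
  intro z hz
  rw [mem_ball_iff_norm] at hz
  have h1 : z ∈ Metric.ball w₀ ρ := by
    rw [mem_ball_iff_norm]
    have := norm_nonneg b
    linarith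
  have h2 : z + b ∈ Metric.ball w₀ ρ := by
    rw [mem_ball_iff_norm]
    have h3 : z + b - w₀ = (z - w₀) + b := by ring
    rw [h3]
    refine (norm_add_le _ _).trans_lt ?_
    linarith
  exact ((h _ h2).comp_add_const z b).sub (h _ h1)

theorem pf_D3 : W_D3 := by
  intro f f₁ f₂ f₃ w₀ k ρ δ hf z b₁ b₂ b₃ hz
  -- subtract the cubic polynomial
  set h : ℂ → ℂ := fun z => f z - k * z ^ 3 / 6 with hh
  set h₁ : ℂ → ℂ := fun z => f₁ z - k * z ^ 2 / 2 with hh₁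
  set h₂ : ℂ → ℂ := fun z => f₂ z - k * z with hh₂
  set h₃ : ℂ → ℂ := fun z => f₃ z - k with hh₃
  have d0 : ∀ z ∈ Metric.ball w₀ ρ, HasDerivAt h (h₁ z) z := by
    intro z hz
    have h1 : HasDerivAt (fun z : ℂ => k * z ^ 3 / 6) (k * z ^ 2 / 2) z := by
      have h2 := ((hasDerivAt_pow 3 z).const_mul k).div_const 6
      have h3 : k * z ^ 2 / 2 = k * (((3 : ℕ) : ℂ) * z ^ (3 - 1)) / 6 := by
        push_cast
        ring
      rw [h3]
      exact h2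
    exact (hf z hz).1.sub h1
  have d1 : ∀ z ∈ Metric.ball w₀ ρ, HasDerivAt h₁ (h₂ z) z := by
    intro z hz
    have h1 : HasDerivAt (fun z : ℂ => k * z ^ 2 / 2) (k * z) z := by
      have h2 := ((hasDerivAt_pow 2 z).const_mul k).div_const 2
      have h3 : k * z = k * (((2 : ℕ) : ℂ) * z ^ (2 - 1)) / 2 := by
        push_cast
        ring
      rw [h3]
      exact h2
    exact (hf z hz).2.1.sub h1
  have d2 : ∀ z ∈ Metric.ball w₀ ρ, HasDerivAt h₂ (h₃ z) z ∧ ‖h₃ z‖ ≤ δ := by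
    intro z hz
    have h1 : HasDerivAt (fun z : ℂ => k * z) k z := by
      simpa using (hasDerivAt_id z).const_mul k
    exact ⟨(hf z hz).2.2.1.sub h1, (hf z hz).2.2.2⟩
  -- first difference
  have e1 : ∀ z ∈ Metric.ball w₀ (ρ - ‖b₃‖), ‖h₂ (z + b₃) - h₂ z‖ ≤ δ * ‖b₃‖ := by
    intro z hz
    rw [mem_ball_iff_norm] at hz
    exact step h₂ h₃ w₀ ρ δ d2 z b₃ (by linarith)
  have c1 := diff h₁ h₂ w₀ ρ d1 b₃
  -- second difference
  have e2 : ∀ z ∈ Metric.ball w₀ (ρ - ‖b₃‖ - ‖b₂‖),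
      ‖(h₁ (z + b₂ + b₃) - h₁ (z + b₂)) - (h₁ (z + b₃) - h₁ z)‖ ≤ δ * ‖b₃‖ * ‖b₂‖ := by
    intro z hz
    rw [mem_ball_iff_norm] at hz
    exact step (fun z => h₁ (z + b₃) - h₁ z) (fun z => h₂ (z + b₃) - h₂ z) w₀ (ρ - ‖b₃‖)
      (δ * ‖b₃‖) (fun z hz => ⟨c1 z hz, e1 z hz⟩) z b₂ (by linarith)
  have c2 := diff (fun z => h (z + b₃) - h z) (fun z => h₁ (z + b₃) - h₁ z) w₀ (ρ - ‖b₃‖)
    (diff h h₁ w₀ ρ d0 b₃) b₂
  -- third difference
  have e3 := step (fun z => (h (z + b₂ + b₃) - h (z + b₂)) - (h (z + b₃) - h z))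
    (fun z => (h₁ (z + b₂ + b₃) - h₁ (z + b₂)) - (h₁ (z + b₃) - h₁ z)) w₀
    (ρ - ‖b₃‖ - ‖b₂‖) (δ * ‖b₃‖ * ‖b₂‖) (fun z hz => ⟨c2 z hz, e2 z hz⟩) z b₁ (by linarith)
  have e4 : (f (z + b₁ + b₂ + b₃) - f (z + b₁ + b₂) - f (z + b₁ + b₃) + f (z + b₁) -
      f (z + b₂ + b₃) + f (z + b₂) + f (z + b₃) - f z) - k * (b₁ * b₂ * b₃) =
      ((h (z + b₁ + b₂ + b₃) - h (z + b₁ + b₂)) - (h (z + b₁ + b₃) - h (z + b₁))) -
      ((h (z + b₂ + b₃) - h (z + b₂)) - (h (z + b₃) - h z)) := by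
    simp only [hh]
    ring
  rw [e4, norm_mul, norm_mul]
  refine e3.trans (le_of_eq ?_)
  ring

end Pool.Agent.H33.SWL.D3
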