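import Pool.Agent.H31.SW.TargetsL
import Pool.Agent.H31.SW.Tools

/-!
# (AB) bounds for the dual amplitude and its derivatives
-/

set_option autoImplicit false

open MeasureTheory Set Filter Complex

namespace Pool.Agent.H33.SWL.AB

open Pool.Agent.H31.SW
open Pool.Agent.H29.DW (dg Rl)

private theorem est (a w : ℂ) (ha : ‖a‖ ≤ 1 / 10000) (hw : w ∈ Metric.ball (1 : ℂ) (4 * (1 / 10000))) :
    w ^ 2 - a ^ 2 ≠ 0 ∧ ‖2 * w / (w ^ 2 - a ^ 2) ^ 2 - 2‖ ≤ 1 := by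
  rw [mem_ball_iff_norm] at hw
  have hw1 : ‖w - 1‖ ≤ 1 / 2500 := by linarith
  set q : ℂ := w ^ 2 - a ^ 2 with hq
  have e1 : ‖q - 1‖ ≤ 1 / 1000 := by
    have h1 : q - 1 = (w - 1) * (w - 1) + 2 * (w - 1) - a ^ 2 := by
      rw [hq]
      ring
    rw [h1]
    refine (norm_sub_le _ _).trans ?_
    have h2 : ‖(w - 1) * (w - 1) + 2 * (w - 1)‖ ≤ ‖w - 1‖ * ‖w - 1‖ + 2 * ‖w - 1‖ := by
      refine (norm_add_le _ _).trans ?_
      rw [norm_mul, norm_mul, Complex.norm_ofNat]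
    rw [norm_pow]
    have h3 := norm_nonneg (w - 1)
    have h4 := norm_nonneg a
    nlinarith
  have e2 : ‖q ^ 2 - 1‖ ≤ 3 / 1000 := by
    have h1 : q ^ 2 - 1 = (q - 1) * (q - 1) + 2 * (q - 1) := by ring
    rw [h1]
    have h2 : ‖(q - 1) * (q - 1) + 2 * (q - 1)‖ ≤ ‖q - 1‖ * ‖q - 1‖ + 2 * ‖q - 1‖ := by
      refine (norm_add_le _ _).trans ?_
      rw [norm_mul, norm_mul, Complex.norm_ofNat]
    have h3 := norm_nonneg (q - 1)
    nlinarith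
  have e3 : 997 / 1000 ≤ ‖q ^ 2‖ := by
    have h1 : ‖(1 : ℂ)‖ ≤ ‖q ^ 2‖ + ‖q ^ 2 - 1‖ := by
      have h2 : (1 : ℂ) = q ^ 2 - (q ^ 2 - 1) := by ring
      calc ‖(1 : ℂ)‖ = ‖q ^ 2 - (q ^ 2 - 1)‖ := by rw [← h2]
        _ ≤ _ := norm_sub_le _ _
    rw [norm_one] at h1
    linarith
  have hq2 : q ^ 2 ≠ 0 := by
    intro h
    rw [h, norm_zero] at e3
    norm_num at e3
  have hq0 : q ≠ 0 := fun h => hq2 (by rw [h]; ring)
  refine ⟨hq0, ?_⟩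
  have h1 : 2 * w / q ^ 2 - 2 = 2 * ((w - 1) - (q ^ 2 - 1)) / q ^ 2 := by
    rw [eq_div_iff hq2, sub_mul, div_mul_cancel₀ _ hq2]
    ring
  rw [h1, norm_div, norm_mul, Complex.norm_ofNat, div_le_one (by linarith)]
  have h2 := norm_sub_le (w - 1) (q ^ 2 - 1)
  linarith

private theorem hder (a w : ℂ) (h : w ^ 2 - a ^ 2 ≠ 0) :
    HasDerivAt (fun w : ℂ => -1 / (w ^ 2 - a ^ 2)) (2 * w / (w ^ 2 - a ^ 2) ^ 2) w := by
  have h1 : HasDerivAt (fun w : ℂ => w ^ 2 - a ^ 2) (2 * w) w := by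
    have := (hasDerivAt_pow 2 w).sub_const (a ^ 2)
    simpa using this
  have h2 := (hasDerivAt_const w (-1 : ℂ)).div h1 h
  have h3 : 2 * w / (w ^ 2 - a ^ 2) ^ 2 =
      (0 * (w ^ 2 - a ^ 2) - -1 * (2 * w)) / (w ^ 2 - a ^ 2) ^ 2 := by
    ring
  rw [h3]
  exact h2

/-- the bound of the function itself -/
private theorem base (hOI : W_OI) (hHU : W_HU) (hGB : W_GB) (r : Bool) (g : ℂ × ℂ × ℂ → ℂ)
    (hg : GC g) : ∃ C : ℝ, 0 ≤ C ∧ ∀ a Λ : ℂ, a ≠ 0 → ‖a‖ ≤ 1 / 10000 → Rl r a → Rl r Λ →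
    ∀ z ∈ Metric.ball (1 : ℂ) (1 / 100),
      ‖AG r g a Λ z‖ ≤ C * (1 + ‖Λ‖) ^ (-(dg r : ℝ) / 2) := by
  obtain ⟨C₁, hC₁, h1⟩ := hGB g hg 3
  obtain ⟨C₂, hC₂, h2⟩ := hOI (1 / 10000) (by norm_num)
  refine ⟨C₂ * C₁, by positivity, ?_⟩
  intro a Λ ha0 ha hra hrΛ z hz
  obtain ⟨u1, u2, u3⟩ := hHU a ha0 ha
  set η : ℂ := pj r z with hη
  have hη1 : ‖η - 1‖ < 1 / 100 := by
    rw [mem_ball_iff_norm] at hz
    have h3 : η - 1 = pj r (z - 1) := by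
      rw [pj_sub, pj_of_Rl (Rl_one r)]
    rw [h3]
    exact (norm_pj_le r _).trans_lt hz
  have hsub : ∀ w ∈ Metric.ball (1 : ℂ) (4 * (1 / 10000)), w ∈ Metric.ball (1 : ℂ) (1 / 50) := by
    intro w hw
    rw [mem_ball_iff_norm] at hw ⊢
    linarith
  unfold AG
  refine h2 r 1 Λ η 2 (fun w => Λ * (hh a w + η * w - psi a η))
    (fun w => -1 / (w ^ 2 - a ^ 2)) (fun w => 2 * w / (w ^ 2 - a ^ 2) ^ 2)
    (fun w => g (a, η, w)) C₁ hC₁ ?_ ?_ ?_ ?_ ?_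
  · rw [Complex.norm_ofNat]
    norm_num
  · intro w hw
    have h3 := u1 w (hsub w hw)
    have h4 : HasDerivAt (fun w : ℂ => η * w) η w := by
      simpa using (hasDerivAt_id w).const_mul η
    exact ((h3.add h4).sub_const (psi a η)).const_mul Λ
  · intro w hw
    obtain ⟨h3, h4⟩ := est a w ha hw
    refine ⟨hder a w h3, h4.trans ?_⟩
    rw [Complex.norm_ofNat]
    norm_num
  · intro w hw hrw
    refine Rl_mul hrΛ (Rl_add (Rl_div ?_ (Rl_sub (Rl_pow hrw 2) (Rl_pow hra 2))) (Rl_pj r z))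
    exact Rl_neg (Rl_one r)
  · exact h1 a η ha hη1.le

theorem pf_AB (hOI : W_OI) (hHU : W_HU) (hGB : W_GB) (hGL : W_GL) (hAD : W_AD) : W_AB := by
  intro r g hg n
  induction n generalizing g with
  | zero =>
    obtain ⟨C, hC, h⟩ := base hOI hHU hGB r g hg
    refine ⟨C, hC, fun a Λ ha0 ha hra hrΛ => ⟨fun z hz => ?_, fun z hz => ?_⟩⟩
    · have hz' : z ∈ Metric.ball (1 : ℂ) (1 / 60) := Metric.ball_subset_ball (by norm_num) hz
      exact (hAD r g a Λ z hg ha0 ha hra hrΛ hz').continuousAt.continuousWithinAt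
    · exact h a Λ ha0 ha hra hrΛ z hz
  | succ n ih =>
    obtain ⟨C, hC, h⟩ := base hOI hHU hGB r g hg
    obtain ⟨C₁, hC₁, h1⟩ := ih (LL r 1 g) (hGL g hg r 1)
    obtain ⟨C₂, hC₂, h2⟩ := ih (LL r I g) (hGL g hg r I)
    refine ⟨C + C₁ + C₂, by positivity, fun a Λ ha0 ha hra hrΛ => ⟨fun z hz => ?_, ?_⟩⟩
    · refine (h a Λ ha0 ha hra hrΛ z hz).trans ?_
      have h3 : 0 ≤ (1 + ‖Λ‖) ^ (-(dg r : ℝ) / 2) := by positivity
      exact mul_le_mul_of_nonneg_right (by linarith) h3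
    refine ⟨AG r (LL r 1 g) a Λ, if r then 0 else AG r (LL r I g) a Λ, fun z hz => ?_, ?_, ?_⟩
    · have hz' : z ∈ Metric.ball (1 : ℂ) (1 / 60) := Metric.ball_subset_ball (by norm_num) hz
      exact hAD r g a Λ z hg ha0 ha hra hrΛ hz'
    · refine (h1 a Λ ha0 ha hra hrΛ).mono subset_rfl fun z _ => ?_
      have h3 : 0 ≤ (1 + ‖Λ‖) ^ (-(dg r : ℝ) / 2) := by positivity
      exact mul_le_mul_of_nonneg_right (by linarith) h3
    · cases r with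
      | true =>
        rw [if_pos rfl]
        exact DB.zero n _ _ fun z _ => by positivity
      | false =>
        rw [if_neg (by simp)]
        refine (h2 a Λ ha0 ha hra hrΛ).mono subset_rfl fun z _ => ?_
        have h3 : 0 ≤ (1 + ‖Λ‖) ^ (-(dg false : ℝ) / 2) := by positivity
        exact mul_le_mul_of_nonneg_right (by linarith) h3

end Pool.Agent.H33.SWL.AB
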